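import Pool.Agent.Y527.ZA.Dfn
set_option autoImplicit false

/-! Assembly: the definable subsets of the ring of abelian algebraic integers. -/

namespace Pool.Agent.Y527.ZA

open FirstOrder FirstOrder.Language Polynomial
open Pool.Agent.Helper967.ArithDef Pool.Agent.Helper967.ModelDef Pool.Agent.H358R3
open Pool.Agent.H358R3.Df

attribute [local instance] Df.strO

lemma map_ev {R R' : Type} [CommSemiring R] [CommSemiring R'] (f : R →+* R') (l : List ℕ) (x : R) :
    f (ev l x) = ev l (f x) := by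
  induction l with
  | nil => exact map_zero f
  | cons c l ih => rw [ev_cons, ev_cons, map_add, map_mul, ih, map_natCast]

lemma zt_pow (a b : ℕ) (hb : b ≠ 0) : zt (a * b) ^ b = zt a := by
  unfold zt
  rw [← Complex.exp_nat_mul]
  congr 1
  have : (b : ℂ) ≠ 0 := Nat.cast_ne_zero.2 hb
  push_cast
  rcases Nat.eq_zero_or_pos a with ha | ha
  · subst ha; simp
  · have : (a : ℂ) ≠ 0 := Nat.cast_ne_zero.2 ha.ne'
    field_simp

lemma zR_pow (a b : ℕ) (ha : a ≠ 0) (hb : b ≠ 0) (hab : a * b ≠ 0) : zR (a * b) hab ^ b = zR a ha := by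
  apply inc_inj
  rw [map_pow, inc_zR, inc_zR, zt_pow a b hb]

lemma zR_pow' (a b : ℕ) (ha : a ≠ 0) (hb : b ≠ 0) (hab : a * b ≠ 0) : zR (a * b) hab ^ a = zR b hb := by
  apply inc_inj
  rw [map_pow, inc_zR, inc_zR, mul_comm, zt_pow b a ha]

/-- Invariance makes the conjugates of the elements of `S` elements of `S`. -/
lemma cj_mem (hS : s_SURJ) (hG : s_GAL) (S : Set Zab) (m : ℕ) (hm : m ≠ 0)
    (h : ∀ σ : Zab ≃+* Zab, σ (zR m hm) = zR m hm → ∀ x ∈ S, σ x ∈ S) (x : Zab) :
    Cj {c | dec c ∈ S} m x (zR m hm) ↔ x ∈ S := by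
  constructor
  · rintro ⟨c, ζ, hc, h1, h2, h3⟩
    have hN : (c.unpair.1 + 1) * m ≠ 0 := by positivity
    obtain ⟨σ, hσ⟩ := hG _ hN ζ h1
    have e1 : σ (zR m hm) = zR m hm := by
      rw [← zR_pow' (c.unpair.1 + 1) m (Nat.succ_ne_zero _) hm hN, map_pow, hσ, h2,
        zR_pow' (c.unpair.1 + 1) m (Nat.succ_ne_zero _) hm hN]
    have e2 : σ (dec c) = x := by
      have := map_ev (σ : Zab →+* Zab) (Denumerable.ofNat (List ℕ) c.unpair.2)
        (zR (c.unpair.1 + 1) (Nat.succ_ne_zero _))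
      rw [h3, ← hσ]
      rw [← map_pow, zR_pow (c.unpair.1 + 1) m (Nat.succ_ne_zero _) hm hN]
      exact this
    rw [← e2]
    exact h σ e1 _ hc
  · intro hx
    obtain ⟨c, hc⟩ := hS x
    have hN : (c.unpair.1 + 1) * m ≠ 0 := by positivity
    refine ⟨c, zR _ hN, ?_, zR_prim _ hN, zR_pow' _ m (Nat.succ_ne_zero _) hm hN, ?_⟩
    · show dec c ∈ S
      rw [hc]; exact hx
    · rw [zR_pow (c.unpair.1 + 1) m (Nat.succ_ne_zero _) hm hN]
      exact hc.symm

lemma zR_one (h : (1 : ℕ) ≠ 0) : zR 1 h = 1 := by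
  have := zR_prim 1 h
  exact IsPrimitiveRoot.one_right_iff.1 this

/-- From definability to an arithmetical set of codes. -/
lemma arith_of_form (hS : s_SURJ) (hF : s_FORM) (hO : s_OPS) (hA : s_ARI) (S : Set Zab)
    (φ : Language.ring.Formula (Zab ⊕ Fin 1))
    (hφ : ∀ x : Zab, φ.Realize (Sum.elim id (fun _ : Fin 1 => x)) ↔ x ∈ S) : Arith {c | dec c ∈ S} := by
  rw [hA]
  intro D' h
  obtain ⟨o1, o2⟩ := hO D' h
  refine h.iff (fun w => ?_) (hF Zab dec D' h hS o1 o2 φ)
  exact hφ _

theorem main (hS : s_SURJ) (hG : s_GAL) (hE : s_EVAL) (hF : s_FORM) (hX : s_FIX) (hX0 : s_FIX0) (hO : s_OPS)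
    (hA : s_ARI) (S : Set Zab) :
    (Set.Definable₁ (∅ : Set Zab) Language.ring S ↔
      (∀ σ : Zab ≃+* Zab, ∀ x ∈ S, σ x ∈ S) ∧ Arith {c | dec c ∈ S}) ∧
    (Set.Definable₁ (Set.univ : Set Zab) Language.ring S ↔
      (∃ (m : ℕ) (hm : m ≠ 0), ∀ σ : Zab ≃+* Zab, σ (zR m hm) = zR m hm → ∀ x ∈ S, σ x ∈ S) ∧
      Arith {c | dec c ∈ S}) := by
  constructor
  · constructor
    · intro h
      unfold Set.Definable₁ at h
      rw [Set.empty_definable_iff] at h
      obtain ⟨ψ, hψ⟩ := h
      have hr : ∀ z : Zab, ψ.Realize (fun _ : Fin 1 => z) ↔ z ∈ S := by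
        intro z
        have h1 := Set.ext_iff.1 hψ (fun _ : Fin 1 => z)
        exact h1.symm
      constructor
      · intro σ x hx
        rw [← hr] at hx ⊢
        exact (hX0 ψ σ x).1 hx
      · refine arith_of_form hS hF hO hA S (ψ.relabel Sum.inr) (fun x => ?_)
        rw [Formula.realize_relabel]
        exact hr x
    · rintro ⟨h1, h2⟩
      have hc := d_cj hE {c | dec c ∈ S} one_ne_zero ((hA _).1 h2)
      refine definable_of_D (R := fun x => x ∈ S) ?_
      have h3 : D Zab (fun v => ∀ o : Zab, o = 1 → Cj {c | dec c ∈ S} 1 (v 0) o) :=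
        DM.all (DM.imp (DM.term (tv 0) t1) (D2r (Q := Cj {c | dec c ∈ S} 1) hc 1 0))
      refine DM.iff (fun i v => ?_) h3
      have h4 := cj_mem hS hG S 1 one_ne_zero (fun σ _ => h1 σ) (v 0)
      rw [zR_one] at h4
      show (∀ o : Zab, o = 1 → Cj {c | dec c ∈ S} 1 (v 0) o) ↔ v 0 ∈ S
      rw [← h4]
      exact ⟨fun h => h 1 rfl, fun h o ho => ho ▸ h⟩
  · constructor
    · intro h
      unfold Set.Definable₁ at h
      rw [Set.definable_iff_exists_formula_sum] at h
      obtain ⟨ψ, hψ⟩ := h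
      let φ : Language.ring.Formula (Zab ⊕ Fin 1) := ψ.relabel (Sum.map (Subtype.val) id)
      have hr : ∀ z : Zab, φ.Realize (Sum.elim id (fun _ : Fin 1 => z)) ↔ z ∈ S := by
        intro z
        have h1 := Set.ext_iff.1 hψ (fun _ : Fin 1 => z)
        show Formula.Realize (ψ.relabel (Sum.map (Subtype.val) id)) _ ↔ _
        rw [Formula.realize_relabel]
        refine Iff.trans ?_ h1.symm
        have : (Sum.elim id (fun _ : Fin 1 => z) : Zab ⊕ Fin 1 → Zab) ∘ Sum.map Subtype.val id =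
            Sum.elim (fun a : (Set.univ : Set Zab) => (a : Zab)) (fun _ : Fin 1 => z) := by
          funext s
          rcases s with a | b
          · rfl
          · rfl
        rw [this]
        rfl
      constructor
      · obtain ⟨m, hm, h⟩ := hX φ
        refine ⟨m, hm, fun σ hσ x hx => ?_⟩
        rw [← hr] at hx ⊢
        exact (h σ hσ x).1 hx
      · exact arith_of_form hS hF hO hA S φ hr
    · rintro ⟨⟨m, hm, h1⟩, h2⟩
      obtain ⟨φ, hφ⟩ := d_cj hE {c | dec c ∈ S} hm ((hA _).1 h2)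
      unfold Set.Definable₁
      rw [Set.definable_iff_exists_formula_sum]
      let g : Empty ⊕ ℕ → (Set.univ : Set Zab) ⊕ Fin 1 := fun s => match s with
        | .inl e => e.elim
        | .inr 0 => .inr 0
        | .inr (_ + 1) => .inl ⟨zR m hm, trivial⟩
      refine ⟨φ.relabel g, ?_⟩
      ext x
      have h3 := cj_mem hS hG S m hm h1 (x 0)
      have h4 := hφ () (fun n => match n with | 0 => x 0 | _ => zR m hm)
      have h5 : Formula.Realize (φ.relabel g) (Sum.elim (fun a : (Set.univ : Set Zab) => (a : Zab)) x) ↔ x 0 ∈ S := by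
        rw [Formula.realize_relabel, ← h3]
        refine Iff.trans ?_ h4
        have : (Sum.elim (fun a : (Set.univ : Set Zab) => (a : Zab)) x) ∘ g =
            Sum.elim (par Zab ()) (fun n => match n with | 0 => x 0 | _ => zR m hm) := by
          funext s
          rcases s with e | k
          · exact e.elim
          · match k with
            | 0 => rfl
            | (k + 1) => rfl
        rw [this]
      exact h5.symm

end Pool.Agent.Y527.ZA
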