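import Pool.Agent.Y527.ZA.Stm
set_option autoImplicit false

/-! Definability in `Zab` of the relation: `x` is a conjugate of an element with code in `A`. -/

namespace Pool.Agent.Y527.ZA

open FirstOrder FirstOrder.Language Polynomial
open Pool.Agent.Helper967.ArithDef Pool.Agent.Helper967.ModelDef Pool.Agent.H358R3
open Pool.Agent.H358R3.Df

attribute [local instance] Df.strO

lemma D2r {Q : Zab → Zab → Prop} (h : D Zab (fun v => Q (v 0) (v 1))) (i j : ℕ) :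
    D Zab (fun v => Q (v i) (v j)) :=
  DM.ren (R := fun _ v => Q (v 0) (v 1)) (fun n => match n with | 0 => i | _ => j) h

lemma D3r {Q : Zab → Zab → Zab → Prop} (h : D Zab (fun v => Q (v 0) (v 1) (v 2))) (i j k : ℕ) :
    D Zab (fun v => Q (v i) (v j) (v k)) :=
  DM.ren (R := fun _ v => Q (v 0) (v 1) (v 2)) (fun n => match n with | 0 => i | 1 => j | _ => k) h

lemma d_nat : D Zab (fun v => ∃ n : ℕ, v 0 = n) := d_nat_of_int int_definable

lemma d_natk (k : ℕ) : D Zab (fun v => ∃ n : ℕ, v k = n) := app1 (R := fun a => ∃ n : ℕ, a = (n : Zab)) d_nat (tv k)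

/-- A ternary relation of naturals, on the copy of the naturals in `Zab`. -/
def Nr (R : ℕ → ℕ → ℕ → Prop) (x y z : Zab) : Prop := ∃ a b c : ℕ, x = a ∧ y = b ∧ z = c ∧ R a b c

lemma nr_iff (R : ℕ → ℕ → ℕ → Prop) (a b c : ℕ) : Nr R (a : Zab) (b : Zab) (c : Zab) ↔ R a b c := by
  constructor
  · rintro ⟨a', b', c', h1, h2, h3, h⟩
    have e1 := Nat.cast_injective (R := Zab) h1
    have e2 := Nat.cast_injective (R := Zab) h2
    have e3 := Nat.cast_injective (R := Zab) h3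
    subst e1 e2 e3
    exact h
  · intro h
    exact ⟨a, b, c, rfl, rfl, rfl, h⟩

lemma d_nr (R : ℕ → ℕ → ℕ → Prop)
    (hR : ∀ D' : ((ℕ → ℕ) → Prop) → Prop, DC D' → D' (fun w => R (w 0) (w 1) (w 2))) :
    D Zab (fun v => Nr R (v 0) (v 1) (v 2)) := by
  obtain ⟨φ, hφ⟩ := hR _ (DN.closed (interp_nat d_nat))
  let ρ : ℕ → ℕ := fun n => min n 2
  have h1 : D Zab (fun v => φ.Realize (Sum.elim (par Zab ()) (fun n => v (ρ n)))) :=
    ⟨φ.relabel (Sum.map id ρ), fun i v => by rw [realize_ren]⟩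
  refine DM.iff (fun i v => ?_) (DM.and (d_natk 0) (DM.and (d_natk 1) (DM.and (d_natk 2) h1)))
  constructor
  · rintro ⟨⟨a, ha⟩, ⟨b, hb⟩, ⟨c, hc⟩, h⟩
    refine ⟨a, b, c, ha, hb, hc, ?_⟩
    have := hφ () (fun n => match n with | 0 => a | 1 => b | _ => c)
    refine this.1 ?_
    convert h using 2
    funext n
    match n with
    | 0 => exact ha.symm
    | 1 => exact hb.symm
    | (k + 2) =>
      have : ρ (k + 2) = 2 := by simp [ρ]
      rw [this]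
      exact hc.symm
  · rintro ⟨a, b, c, ha, hb, hc, h⟩
    refine ⟨⟨a, ha⟩, ⟨b, hb⟩, ⟨c, hc⟩, ?_⟩
    have := (hφ () (fun n => match n with | 0 => a | 1 => b | _ => c)).2 h
    convert this using 2
    funext n
    match n with
    | 0 => exact ha
    | 1 => exact hb
    | (k + 2) =>
      have : ρ (k + 2) = 2 := by simp [ρ]
      rw [this]
      exact hc

/-! ### computable functions -/

section
variable {D' : ((ℕ → ℕ) → Prop) → Prop} (h : DC D')
include h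

lemma tcomp {f : ℕ → ℕ} (hf : Primrec f) {F : (ℕ → ℕ) → ℕ} (hF : DT D' F) : DT D' (fun w => f (F w)) := by
  have h1 : D' (fun w => w 1 ∈ (fun n => (Part.some (f n))) (w 0)) :=
    h.partrec (f := fun n => Part.some (f n)) (by
      have := (Primrec.nat_iff.1 hf)
      exact Nat.Partrec.of_primrec this)
  have h2 : DT D' (fun w => f (w 0)) := by
    unfold DT
    refine h.iff (fun w => ?_) (h.ren (fun n => match n with | 0 => 1 | _ => 0) h1)
    simp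
  exact h.app2 (R := fun a b => a = f b) (F := fun w => w 0) (G := fun w => F (fun n => w (n + 1)))
    (h.iff (fun w => by simp) h2) (h.tvar 0) (h.tren (fun n => n + 1) hF)

end

lemma ev_cons {R : Type} [CommSemiring R] (c : ℕ) (l : List ℕ) (x : R) :
    ev (c :: l) x = (c : R) + x * ev l x := rfl

lemma ev_nat (l : List ℕ) (x : ℕ) : ev l x = l.foldr (fun c s => c + x * s) 0 := by
  induction l with
  | nil => rfl
  | cons c l ih => rw [ev_cons, ih, List.foldr_cons]; simp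

lemma prim_ev : Primrec (fun c : ℕ => (ev (Denumerable.ofNat (List ℕ) c.unpair.1) c.unpair.2 : ℕ)) := by
  simp only [ev_nat]
  have h1 : Primrec (fun c : ℕ => Denumerable.ofNat (List ℕ) c.unpair.1) :=
    (Primrec.ofNat (List ℕ)).comp (Primrec.fst.comp Primrec.unpair)
  refine Primrec.list_foldr (h := fun (c : ℕ) (q : ℕ × ℕ) => q.1 + c.unpair.2 * q.2) h1 (Primrec.const 0) ?_
  have h2 : Primrec (fun q : ℕ × (ℕ × ℕ) => q.2.1 + q.1.unpair.2 * q.2.2) :=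
    Primrec.nat_add.comp (Primrec.fst.comp Primrec.snd)
      (Primrec.nat_mul.comp (Primrec.snd.comp (Primrec.unpair.comp Primrec.fst))
        (Primrec.snd.comp Primrec.snd))
  exact h2

/-- the coefficients of `X ^ k` -/
def pwl : ℕ → List ℕ
  | 0 => [1]
  | k + 1 => 0 :: pwl k

lemma ev_pwl {R : Type} [CommSemiring R] (k : ℕ) (x : R) : ev (pwl k) x = x ^ k := by
  induction k with
  | zero => simp [pwl, ev]
  | succ k ih =>
    have : ev (pwl (k + 1)) x = ((0 : ℕ) : R) + x * ev (pwl k) x := rfl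
    rw [this, ih, Nat.cast_zero, zero_add, pow_succ']

lemma prim_pwl : Primrec (fun k => Encodable.encode (pwl k)) := by
  refine Primrec.encode.comp ?_
  have : pwl = fun k => Nat.rec (motive := fun _ => List ℕ) [1] (fun _ l => 0 :: l) k := by
    funext k
    induction k with
    | zero => rfl
    | succ k ih =>
      show 0 :: pwl k = _
      rw [ih]
  rw [this]
  exact Primrec.nat_rec₁ [1] (Primrec.list_cons.comp (Primrec.const 0) Primrec.snd)

/-! ### the relations -/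

/-- `x = f(ζ)` for the polynomial with code `N` -/
def EVp (ζ x N : Zab) : Prop := ∀ p a b : Zab,
  Nr (fun N' a' b' => b' = ev (Denumerable.ofNat (List ℕ) N') a') N a b → (∃ n : ℕ, p = n) →
  (¬ ∃ u w : Zab, u * p + w * (ζ - a) = 1) → ¬ ∃ u w t : Zab, u * p + w * (ζ - a) + t * (x - b) = 1

lemma evp_iff (hE : s_EVAL) {ζ : Zab} (hζ : IsRU ζ) (x : Zab) (N : ℕ) :
    EVp ζ x N ↔ x = ev (Denumerable.ofNat (List ℕ) N) ζ := by
  rw [hE ζ x _ hζ]
  constructor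
  · intro h p a h1
    exact h p a _ ((nr_iff _ _ _ _).2 rfl) ⟨p, rfl⟩ h1
  · rintro h p a b ⟨N', a', b', hN, rfl, rfl, hb⟩ ⟨p', rfl⟩ h1
    have := Nat.cast_injective (R := Zab) hN
    subst this
    rw [hb]
    exact h p' a' h1

lemma d_evp : D Zab (fun v => EVp (v 0) (v 1) (v 2)) := by
  unfold EVp
  refine DM.all (DM.all (DM.all ?_))
  -- b = 0, a = 1, p = 2, ζ = 3, x = 4, N = 5
  refine DM.imp (D3r (Q := Nr (fun N' a' b' => b' = ev (Denumerable.ofNat (List ℕ) N') a')) (d_nr _ ?_) 5 1 0)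
    (DM.imp (d_natk 2) (DM.imp (DM.not ?_) (DM.not ?_)))
  · intro D' h
    have h1 := tcomp h prim_ev (h.tpair (h.tvar 0) (h.tvar 1))
    refine h.iff (fun w => ?_) (h.eq (h.tvar 2) h1)
    simp
  · refine DM.ex (DM.ex ?_)
    refine DM.iff (R := fun _ v => v 1 * v 4 + v 0 * (v 5 + -(v 3)) = 1) (fun i v => ?_)
      (DM.term (tA (tM (tv 1) (tv 4)) (tM (tv 0) (tA (tv 5) (tN (tv 3))))) t1)
    rw [← sub_eq_add_neg]
  · refine DM.ex (DM.ex (DM.ex ?_))
    refine DM.iff (R := fun _ v => v 2 * v 5 + v 1 * (v 6 + -(v 4)) + v 0 * (v 7 + -(v 3)) = 1) (fun i v => ?_)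
      (DM.term (tA (tA (tM (tv 2) (tv 5)) (tM (tv 1) (tA (tv 6) (tN (tv 4)))))
        (tM (tv 0) (tA (tv 7) (tN (tv 3))))) t1)
    rw [← sub_eq_add_neg, ← sub_eq_add_neg]

/-- `y = ζ ^ k` -/
def PW (ζ y k : Zab) : Prop := ∃ N : Zab, Nr (fun k' N' _ => N' = Encodable.encode (pwl k')) k N N ∧ EVp ζ y N

lemma pw_iff (hE : s_EVAL) {ζ : Zab} (hζ : IsRU ζ) (y : Zab) (k : ℕ) : PW ζ y k ↔ y = ζ ^ k := by
  constructor
  · rintro ⟨N, ⟨k', N', _, hk, hN, _, h⟩, h2⟩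
    have := Nat.cast_injective (R := Zab) hk
    subst this
    rw [hN, evp_iff hE hζ, h, Denumerable.ofNat_encode, ev_pwl] at h2
    exact h2
  · intro h
    refine ⟨(Encodable.encode (pwl k) : ℕ), (nr_iff _ _ _ _).2 rfl, ?_⟩
    rw [evp_iff hE hζ, Denumerable.ofNat_encode, ev_pwl]
    exact h

lemma d_pw : D Zab (fun v => PW (v 0) (v 1) (v 2)) := by
  unfold PW
  refine DM.ex (DM.and ?_ ?_)
  · refine D3r (Q := Nr (fun k' N' _ => N' = Encodable.encode (pwl k'))) (d_nr _ ?_) 3 0 0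
    intro D' h
    exact h.eq (h.tvar 1) (tcomp h prim_pwl (h.tvar 0))
  · exact D3r (Q := EVp) d_evp 1 2 0

/-- `ζ` has order `K` -/
def Prm (ζ K : Zab) : Prop := (∀ o : Zab, o = 1 → PW ζ o K) ∧ ∀ d : Zab, Nr (fun d' K' _ => 0 < d' ∧ d' < K') d K K →
  ¬ ∀ o : Zab, o = 1 → PW ζ o d

lemma prm_iff (hE : s_EVAL) {ζ : Zab} (hζ : IsRU ζ) (K : ℕ) (hK : 0 < K) : Prm ζ K ↔ IsPrimitiveRoot ζ K := by
  have hp : ∀ k : ℕ, (∀ o : Zab, o = 1 → PW ζ o k) ↔ ζ ^ k = 1 := by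
    intro k
    constructor
    · intro h
      have := h 1 rfl
      rw [pw_iff hE hζ] at this
      exact this.symm
    · rintro h o rfl
      rw [pw_iff hE hζ]
      exact h.symm
  unfold Prm
  rw [hp]
  constructor
  · rintro ⟨h1, h2⟩
    rw [IsPrimitiveRoot.iff hK]
    refine ⟨h1, fun d hd hdK => ?_⟩
    have := h2 d ((nr_iff _ _ _ _).2 ⟨hd, hdK⟩)
    rwa [hp] at this
  · intro h
    rw [IsPrimitiveRoot.iff hK] at h
    refine ⟨h.1, ?_⟩
    rintro d ⟨d', K', _, rfl, hK', _, hd⟩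
    have := Nat.cast_injective (R := Zab) hK'
    subst this
    rw [hp]
    exact h.2 d' hd.1 hd.2

lemma d_prm : D Zab (fun v => Prm (v 0) (v 1)) := by
  unfold Prm
  refine DM.and (DM.all (DM.imp (DM.term (tv 0) t1) (D3r (Q := PW) d_pw 1 0 2))) (DM.all (DM.imp ?_ (DM.not
    (DM.all (DM.imp (DM.term (tv 0) t1) (D3r (Q := PW) d_pw 2 0 1))))))
  refine D3r (Q := Nr (fun d' K' _ => 0 < d' ∧ d' < K')) (d_nr _ ?_) 0 2 2
  intro D' h
  exact h.and (h.lt h.tzero (h.tvar 0)) (h.lt (h.tvar 0) (h.tvar 1))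

/-- the conjugates over `ζ_m` of the elements with code in `A` -/
def Cj (A : Set ℕ) (m : ℕ) (x θ : Zab) : Prop := ∃ (c : ℕ) (ζ : Zab), c ∈ A ∧
  IsPrimitiveRoot ζ ((c.unpair.1 + 1) * m) ∧ ζ ^ (c.unpair.1 + 1) = θ ∧
  x = ev (Denumerable.ofNat (List ℕ) c.unpair.2) (ζ ^ m)

/-- the same, as a formula -/
def Cjp (A : Set ℕ) (m : ℕ) (x θ : Zab) : Prop := ∃ ζ c n K N M η : Zab, Mu ζ ∧
  Nr (fun c' n' K' => c' ∈ A ∧ n' = c'.unpair.1 + 1 ∧ K' = n' * m) c n K ∧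
  Nr (fun c' N' M' => N' = c'.unpair.2 ∧ M' = m) c N M ∧
  Prm ζ K ∧ PW ζ θ n ∧ PW ζ η M ∧ EVp η x N

lemma cj_iff (hE : s_EVAL) (A : Set ℕ) {m : ℕ} (hm : m ≠ 0) (x θ : Zab) : Cjp A m x θ ↔ Cj A m x θ := by
  constructor
  · rintro ⟨ζ, c, n, K, N, M, η, h1, ⟨c', n', K', rfl, rfl, rfl, hA, hn, hK⟩, ⟨c'', N', M', hc, rfl, rfl, hN, hM⟩, h2,
      h3, h4, h5⟩
    have := Nat.cast_injective (R := Zab) hc
    subst this
    have hζ := (mu_iff ζ).1 h1
    have hK0 : 0 < K' := by rw [hK, hn]; positivity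
    rw [prm_iff hE hζ _ hK0] at h2
    rw [pw_iff hE hζ] at h3 h4
    subst h4
    rw [evp_iff hE (hζ.pow M')] at h5
    refine ⟨c', ζ, hA, ?_, ?_, ?_⟩
    · rw [← hn, ← hK]; exact h2
    · rw [← hn]; exact h3.symm
    · rw [h5, hN, hM]
  · rintro ⟨c, ζ, hA, h1, h2, h3⟩
    have hK0 : 0 < (c.unpair.1 + 1) * m := by positivity
    have hζ : IsRU ζ := ⟨_, hK0.ne', h1.pow_eq_one⟩
    refine ⟨ζ, c, (c.unpair.1 + 1 : ℕ), ((c.unpair.1 + 1) * m : ℕ), (c.unpair.2 : ℕ), m, ζ ^ m,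
      (mu_iff ζ).2 hζ, (nr_iff _ _ _ _).2 ⟨hA, rfl, rfl⟩, (nr_iff _ _ _ _).2 ⟨rfl, rfl⟩, ?_, ?_, ?_, ?_⟩
    · rw [prm_iff hE hζ _ hK0]; exact h1
    · rw [pw_iff hE hζ]; exact h2.symm
    · rw [pw_iff hE hζ]
    · rw [evp_iff hE (hζ.pow m)]; exact h3

lemma tconst {D' : ((ℕ → ℕ) → Prop) → Prop} (h : DC D') (k : ℕ) : DT D' (fun _ => k) := by
  induction k with
  | zero => exact h.tzero
  | succ k ih => exact h.tadd ih h.tone

theorem d_cj (hE : s_EVAL) (A : Set ℕ) {m : ℕ} (hm : m ≠ 0)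
    (hA : ∀ D' : ((ℕ → ℕ) → Prop) → Prop, DC D' → D' (fun w => w 0 ∈ A)) :
    D Zab (fun v => Cj A m (v 0) (v 1)) := by
  refine DM.iff (R := fun _ v => Cjp A m (v 0) (v 1)) (fun _ v => cj_iff hE A hm _ _) ?_
  unfold Cjp
  refine DM.ex (DM.ex (DM.ex (DM.ex (DM.ex (DM.ex (DM.ex ?_))))))
  -- η = 0, M = 1, N = 2, K = 3, n = 4, c = 5, ζ = 6, x = 7, θ = 8
  refine DM.and (d_muk 6) (DM.and (D3r (Q := Nr (fun c' n' K' => c' ∈ A ∧ n' = c'.unpair.1 + 1 ∧ K' = n' * m)) (d_nr _ ?_) 5 4 3)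
    (DM.and (D3r (Q := Nr (fun c' N' M' => N' = c'.unpair.2 ∧ M' = m)) (d_nr _ ?_) 5 2 1)
    (DM.and (D2r (Q := Prm) d_prm 6 3) (DM.and (D3r (Q := PW) d_pw 6 8 4) (DM.and (D3r (Q := PW) d_pw 6 0 1)
      (D3r (Q := EVp) d_evp 0 7 2))))))
  · intro D' h
    refine h.and (hA D' h) (h.and (h.eq (h.tvar 1) (h.tadd (h.tfst (h.tvar 0)) h.tone))
      (h.eq (h.tvar 2) (h.tmul (h.tvar 1) (tconst h m))))
  · intro D' h
    exact h.and (h.eq (h.tvar 1) (h.tsnd (h.tvar 0))) (h.eq (h.tvar 2) (tconst h m))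

end Pool.Agent.Y527.ZA
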