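import Pool.Agent.H358R3.Zab6
set_option autoImplicit false

/-! Statements: the definable subsets of the ring of abelian algebraic integers are the arithmetical
sets which are invariant under an open group of automorphisms. -/

namespace Pool.Agent.Y527.ZA

open FirstOrder FirstOrder.Language Polynomial
open Pool.Agent.Helper967.ArithDef Pool.Agent.Helper967.ModelDef Pool.Agent.H358R3
open Pool.Agent.H358R3.Df (strO)

attribute [local instance] Df.strO

/-- The value at `x` of the polynomial with the coefficients `l` (constant term first). -/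
def ev {R : Type} [CommSemiring R] (l : List ℕ) (x : R) : R :=
  l.foldr (fun (c : ℕ) (s : R) => (c : R) + x * s) 0

/-- The polynomial with the coefficients `l`. -/
noncomputable def pl (l : List ℕ) : ℤ[X] := ev l (X : ℤ[X])

/-- The element of `Zab` with code `c`: for `c` the code of a pair `(n, N)` it is the value at
`exp (2 π i / (n + 1))` of the polynomial whose list of coefficients has the code `N`. -/
noncomputable def dec (c : ℕ) : Zab :=
  ev (Denumerable.ofNat (List ℕ) c.unpair.2) (zR (c.unpair.1 + 1) (Nat.succ_ne_zero _))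

/-- `A` is arithmetical: it is definable without parameters in the ring of integers. -/
def Arith (A : Set ℕ) : Prop :=
  Set.Definable₁ (∅ : Set ℤ) Language.ring {n : ℤ | ∃ a ∈ A, n = (a : ℤ)}

def s_SURJ : Prop := Function.Surjective dec

def s_GAL : Prop := ∀ (n : ℕ) (hn : n ≠ 0) (ζ : Zab), IsPrimitiveRoot ζ n →
  ∃ σ : Zab ≃+* Zab, σ (zR n hn) = ζ

def s_VAN : Prop := ∀ (F : ℤ[X]) (N : ℕ) (hN : N ≠ 0), aeval (zR N hN) F = 0 ↔
  ∀ p a : ℕ, p.Prime → orderOf (a : ZMod p) = N → (p : ℤ) ∣ F.eval (a : ℤ)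

def s_EVAL : Prop := ∀ (ζ x : Zab) (l : List ℕ), IsRU ζ → (x = ev l ζ ↔
  ∀ p a : ℕ, (¬ ∃ u v : Zab, u * (p : Zab) + v * (ζ - (a : Zab)) = 1) →
    ¬ ∃ u v w : Zab, u * (p : Zab) + v * (ζ - (a : Zab)) + w * (x - ((ev l a : ℕ) : Zab)) = 1)

def s_FORM : Prop := ∀ (O : Type) [CommRing O] (dc : ℕ → O) (D : ((ℕ → ℕ) → Prop) → Prop), DC D →
  Function.Surjective dc → D (fun w => dc (w 0) + dc (w 1) = dc (w 2)) →
  D (fun w => dc (w 0) * dc (w 1) = dc (w 2)) →
  ∀ φ : Language.ring.Formula (O ⊕ Fin 1),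
    D (fun w => φ.Realize (Sum.elim id (fun _ : Fin 1 => dc (w 0))))

def s_FIX : Prop := ∀ φ : Language.ring.Formula (Zab ⊕ Fin 1), ∃ (m : ℕ) (hm : m ≠ 0),
  ∀ σ : Zab ≃+* Zab, σ (zR m hm) = zR m hm → ∀ x : Zab,
    φ.Realize (Sum.elim id (fun _ : Fin 1 => x)) ↔ φ.Realize (Sum.elim id (fun _ : Fin 1 => σ x))

def s_FIX0 : Prop := ∀ φ : Language.ring.Formula (Fin 1), ∀ σ : Zab ≃+* Zab, ∀ x : Zab,
    φ.Realize (fun _ : Fin 1 => x) ↔ φ.Realize (fun _ : Fin 1 => σ x)

def s_OPS : Prop := ∀ D : ((ℕ → ℕ) → Prop) → Prop, DC D →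
  D (fun w => dec (w 0) + dec (w 1) = dec (w 2)) ∧ D (fun w => dec (w 0) * dec (w 1) = dec (w 2))

def s_ARI : Prop := ∀ A : Set ℕ, Arith A ↔ ∀ D : ((ℕ → ℕ) → Prop) → Prop, DC D → D (fun w => w 0 ∈ A)

end Pool.Agent.Y527.ZA
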