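import Pool.Agent.Y527.ZA.Stm
set_option autoImplicit false

/-! Statement: all subfields of the field of abelian numbers are invariant under automorphisms. -/

namespace Pool.Agent.Y527.ZA

open Pool.Agent.H358R3

def s_ABEL : Prop := ∀ (F : IntermediateField ℚ Qab) (σ : Zab ≃+* Zab) (x : Zab),
  (x : Qab) ∈ F → ((σ x : Zab) : Qab) ∈ F

end Pool.Agent.Y527.ZA
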