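import Pool.Agent.Y527.ZA.Asm
import Pool.Agent.Y171.ZA.SURJ
import Pool.Agent.Y442.ZA.GAL
import Pool.Agent.Y442.ZA.EVAL
import Pool.Agent.Y777.ZA.VAN
import Pool.Agent.Y768.ZA.FORM
import Pool.Agent.Y41.ZA.FIX
import Pool.Agent.Y908.ZA.ARI
import Pool.Agent.Y908.ZA.OPS
import Pool.Agent.Y669.TA.DC967
set_option autoImplicit false

/-! Every arithmetical set is many-one reducible to the theory of the ring of abelian integers; the
sets of naturals definable in this ring are the arithmetical sets. -/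

namespace Pool.Agent.Y527.ZA

open FirstOrder FirstOrder.Language
open Pool.Agent.Helper967.ArithDef Pool.Agent.Helper967.ModelDef Pool.Agent.H358R3
open Pool.Agent.H358R3.Df
open Pool.Agent.Helper967.TR (code termCode code_injective DecidableTheory TrueIn)
open Pool.Agent.Y669.TA

attribute [local instance] Df.strO

/-- The theory of the ring `R`: the set of the codes of the sentences that are true in `R`. -/
def Theory (R : Type) [CommRing R] (n : ℕ) : Prop :=
  ∃ φ : Language.ring.Sentence, code φ = n ∧ TrueIn R φ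

theorem exists_formula_arith {A : ℕ → Prop} (hA : Arithmetical A) :
    ∃ Ψ : Language.ring.BoundedFormula Empty 1, ∀ n : ℕ, Zab ⊨ sig Ψ n ↔ A n := by
  obtain ⟨ψ, hψ⟩ := DC967.dc_arith (DN.closed (interp_nat d_nat)) hA
  let g : Empty ⊕ ℕ → Empty ⊕ Fin 1 := fun s => match s with
    | .inl e => e.elim
    | .inr _ => .inr 0
  refine ⟨BoundedFormula.relabel (n := 1) g ψ, fun n => ?_⟩
  unfold sig Sentence.Realize Formula.Realize
  rw [BoundedFormula.realize_all]
  simp only [BoundedFormula.realize_imp]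
  refine Iff.trans ?_ (hψ () (fun _ => n))
  have key : ∀ (v0 : Empty → Zab) (x0 : Fin 0 → Zab) (a : Zab),
      (BoundedFormula.relabel (n := 1) g ψ : Language.ring.BoundedFormula Empty 1).Realize v0
        (Fin.snoc x0 a : Fin 1 → Zab) ↔ ψ.Realize (Sum.elim (par Zab ()) (fun _ => a)) := by
    intro v0 x0 a
    rw [BoundedFormula.realize_relabel]
    have h1 : (Sum.elim v0 ((Fin.snoc x0 a : Fin 1 → Zab) ∘ Fin.castAdd 0) ∘ g) =
        Sum.elim (par Zab ()) (fun _ => a) := by
      funext s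
      rcases s with e | k
      · exact e.elim
      · rfl
    rw [h1]
    unfold Formula.Realize
    exact iff_of_eq (congrArg (BoundedFormula.Realize ψ _) (Subsingleton.elim _ _))
  constructor
  · intro hh
    refine (key _ _ _).1 (hh (n : Zab) ?_)
    show _ = _
    rw [realize_num]
    rfl
  · intro hh a ha
    refine (key _ _ _).2 ?_
    have h1 : a = (n : Zab) := Eq.trans (b := _) ha (realize_num n _)
    rw [h1]
    exact hh

theorem reducible {A : ℕ → Prop} (hA : Arithmetical A) : A ≤₀ Theory Zab := by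
  obtain ⟨Ψ, hΨ⟩ := exists_formula_arith hA
  refine ⟨fun n => code (sig Ψ n), (primrec_sig Ψ).to_comp, fun n => ?_⟩
  rw [← hΨ n]
  constructor
  · intro hh
    exact ⟨sig Ψ n, rfl, hh⟩
  · rintro ⟨ψ, hψ, hh⟩
    rw [← code_injective _ _ hψ]
    exact hh

theorem not_arith : ¬ Arithmetical (Theory Zab) := not_arithmetical fun _ hA => reducible hA

/-- The sets of naturals that are definable with parameters are arithmetical. -/
theorem nat_def_iff (A : Set ℕ) :
    (Set.Definable₁ (∅ : Set Zab) Language.ring {x : Zab | ∃ a ∈ A, x = (a : Zab)} ↔ Arith A) ∧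
    (Set.Definable₁ (Set.univ : Set Zab) Language.ring {x : Zab | ∃ a ∈ A, x = (a : Zab)} ↔ Arith A) := by
  have hS := Pool.Agent.Y171.ZA.h_SURJ
  have hF := Pool.Agent.Y768.ZA.h_FORM
  have hARI := Pool.Agent.Y908.ZA.h_ARI hF
  have hM := main hS Pool.Agent.Y442.ZA.h_GAL Pool.Agent.Y442.ZA.h_EVAL hF Pool.Agent.Y41.ZA.h_FIX
    Pool.Agent.Y41.ZA.h_FIX0 (Pool.Agent.Y908.ZA.h_OPS Pool.Agent.Y777.ZA.h_VAN) hARI
      {x : Zab | ∃ a ∈ A, x = (a : Zab)}
  have hinv : ∀ σ : Zab ≃+* Zab, ∀ x ∈ {x : Zab | ∃ a ∈ A, x = (a : Zab)},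
      σ x ∈ {x : Zab | ∃ a ∈ A, x = (a : Zab)} := by
    rintro σ _ ⟨a, ha, rfl⟩
    exact ⟨a, ha, map_natCast σ a⟩
  have h1 : Set.Definable₁ (∅ : Set Zab) Language.ring {x : Zab | ∃ a ∈ A, x = (a : Zab)} →
      Set.Definable₁ (Set.univ : Set Zab) Language.ring {x : Zab | ∃ a ∈ A, x = (a : Zab)} := by
    intro h
    exact Set.Definable.mono h (Set.empty_subset _)
  have h2 : Set.Definable₁ (Set.univ : Set Zab) Language.ring {x : Zab | ∃ a ∈ A, x = (a : Zab)} →
      Arith A := by
    intro h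
    have h3 := (hM.2.1 h).2
    rw [hARI] at h3 ⊢
    intro D' hD
    -- the code of the constant polynomial `a` at `ζ = 1`
    have hc : Primrec (fun a : ℕ => Nat.pair 0 (Encodable.encode [a])) := by
      refine Primrec₂.natPair.comp (Primrec.const 0) (Primrec.encode.comp ?_)
      exact Primrec.list_cons.comp Primrec.id (Primrec.const [])
    have h4 := hD.app1 (R := fun c => c ∈ {c | dec c ∈ {x : Zab | ∃ a ∈ A, x = (a : Zab)}})
      (h3 D' hD) (tcomp hD hc (hD.tvar 0))
    refine hD.iff (fun w => ?_) h4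
    have e : dec (Nat.pair 0 (Encodable.encode [w 0])) = (w 0 : Zab) := by
      have e2 : Denumerable.ofNat (List ℕ) (Nat.pair 0 (Encodable.encode [w 0])).unpair.2 = [w 0] := by
        rw [Nat.unpair_pair]
        exact Denumerable.ofNat_encode _
      unfold dec
      rw [e2, ev_cons]
      show ((w 0 : ℕ) : Zab) + _ * 0 = _
      rw [mul_zero, add_zero]
    show dec _ ∈ {x : Zab | ∃ a ∈ A, x = (a : Zab)} ↔ _
    rw [e]
    constructor
    · rintro ⟨a, ha, h5⟩
      rw [Nat.cast_injective (R := Zab) h5]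
      exact ha
    · intro h5
      exact ⟨w 0, h5, rfl⟩
  have h3 : Arith A → Set.Definable₁ (∅ : Set Zab) Language.ring {x : Zab | ∃ a ∈ A, x = (a : Zab)} := by
    intro h
    rw [hARI] at h
    refine definable_of_D (R := fun x => ∃ a ∈ A, x = (a : Zab)) ?_
    refine DM.iff (fun i v => ?_) (D3r (Q := Nr (fun a _ _ => a ∈ A)) (d_nr _ ?_) 0 0 0)
    · constructor
      · rintro ⟨a, b, c, h1, _, _, h2⟩
        exact ⟨a, h2, h1⟩
      · rintro ⟨a, h2, h1⟩
        exact ⟨a, a, a, h1, h1, h1, h2⟩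
    · intro D' hD
      exact h D' hD
  exact ⟨⟨fun h => h2 (h1 h), h3⟩, ⟨h2, fun h => h1 (h3 h)⟩⟩

end Pool.Agent.Y527.ZA
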